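import Pool.Agent.Helper79.GS.St1

/-!
# Project GS, module GEO: one round of the geography game
-/

set_option autoImplicit false

namespace Pool.Agent.Helper34.GS

open Pool.Agent.Helper79.GS Pool.Agent.Helper19.SK

private theorem mat_mono {P : Type} {E : P → P → Prop} {m m' : ℕ} (h : Mat E m) (hm : m' ≤ m) :
    Mat E m' := by
  obtain ⟨M, hc, hE, h1, h2⟩ := h
  obtain ⟨N, hN, hNc⟩ := Finset.exists_subset_card_eq (s := M) (n := m') (by omega)
  exact ⟨N, hNc, fun e he => hE e (hN he), h1.mono (Finset.coe_subset.mpr hN),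
    h2.mono (Finset.coe_subset.mpr hN)⟩

private theorem mat_add {P : Type} {E : P → P → Prop} {M : Finset (P × P)} {a b : P}
    (hE : ∀ e ∈ M, E e.1 e.2) (h1 : Set.InjOn Prod.fst (M : Set (P × P)))
    (h2 : Set.InjOn Prod.snd (M : Set (P × P))) (hab : E a b) (ha : ∀ e ∈ M, e.1 ≠ a)
    (hb : ∀ e ∈ M, e.2 ≠ b) : Mat E (M.card + 1) := by
  classical
  have hn : (a, b) ∉ M := fun h => ha _ h rfl
  refine ⟨insert (a, b) M, Finset.card_insert_of_notMem hn, ?_, ?_, ?_⟩
  · intro e he
    rcases Finset.mem_insert.mp he with rfl | he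
    · exact hab
    · exact hE e he
  · intro e he f hf hef
    rw [Finset.mem_coe, Finset.mem_insert] at he hf
    rcases he with rfl | he <;> rcases hf with rfl | hf
    · rfl
    · exact absurd hef.symm (ha f hf)
    · exact absurd hef (ha e he)
    · exact h1 he hf hef
  · intro e he f hf hef
    rw [Finset.mem_coe, Finset.mem_insert] at he hf
    rcases he with rfl | he <;> rcases hf with rfl | hf
    · rfl
    · exact absurd hef.symm (hb f hf)
    · exact absurd hef (hb e he)
    · exact h2 he hf hef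

private theorem mat_max {P : Type} [Finite P] (E : P → P → Prop) :
    ∃ n, Mat E n ∧ ∀ m, Mat E m → m ≤ n := by
  classical
  haveI := Fintype.ofFinite P
  have hne : ({m | Mat E m} : Set ℕ).Nonempty := ⟨0, ∅, rfl, by simp, by simp, by simp⟩
  have hbd : BddAbove ({m | Mat E m} : Set ℕ) := by
    refine ⟨Fintype.card (P × P), ?_⟩
    rintro m ⟨M, rfl, _⟩
    exact Finset.card_le_univ M
  exact ⟨sSup {m | Mat E m}, Nat.sSup_mem hne hbd, fun m hm => le_csSup hbd hm⟩

/-- One round of the geography game. -/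
theorem hGEO : StGEO := by
  classical
  intro P _ E u
  constructor
  · rintro ⟨m, ⟨M, hc, hE, h1, h2⟩, hn⟩
    have hu : ∃ e ∈ M, e.1 = u := by
      by_contra hcon
      push Not at hcon
      exact hn ⟨M, hc, fun e he => ⟨hcon e he, hE e he⟩, h1, h2⟩
    obtain ⟨e, he, heu⟩ := hu
    obtain ⟨a, v⟩ := e
    have hau : a = u := heu
    subst hau
    refine ⟨v, hE _ he, fun w hwu hwv => ⟨m - 1, ?_, ?_⟩⟩
    · refine ⟨M.erase (a, v), ?_, ?_, ?_, ?_⟩
      · rw [Finset.card_erase_of_mem he, hc]
      · intro f hf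
        have hfM := Finset.mem_of_mem_erase hf
        have hfe := Finset.ne_of_mem_erase hf
        exact ⟨fun h => hfe (h1 hfM he h), fun h => hfe (h2 hfM he h), hE f hfM⟩
      · exact h1.mono (Finset.coe_subset.mpr (Finset.erase_subset _ _))
      · exact h2.mono (Finset.coe_subset.mpr (Finset.erase_subset _ _))
    · rintro ⟨N, hNc, hNE, hN1, hN2⟩
      have hpos : 0 < m := by
        rw [← hc]
        exact Finset.card_pos.mpr ⟨_, he⟩
      have hadd := mat_add (E := del E a) (M := N) (a := w) (b := v)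
        (fun f hf => ⟨(hNE f hf).2.1, (hNE f hf).2.2.2⟩) hN1 hN2 ⟨hwu, hwv⟩
        (fun f hf => (hNE f hf).1) (fun f hf => (hNE f hf).2.2.1)
      rw [hNc, Nat.sub_add_cancel hpos] at hadd
      exact hn hadd
  · intro hne v huv
    have hall : ∀ m, Mat E m → Mat (del E u) m := by
      intro m hm
      by_contra hcon
      exact hne ⟨m, hm, hcon⟩
    obtain ⟨n, hn, hmax⟩ := mat_max E
    obtain ⟨M, hc, hE, h1, h2⟩ := hall n hn
    have hv : ∃ e ∈ M, e.2 = v := by
      by_contra hcon
      push Not at hcon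
      have hadd := mat_add (E := E) (M := M) (a := u) (b := v)
        (fun f hf => (hE f hf).2) h1 h2 huv (fun f hf => (hE f hf).1) hcon
      have := hmax _ hadd
      omega
    obtain ⟨e, he, hev⟩ := hv
    obtain ⟨w, b⟩ := e
    have hbv : b = v := hev
    subst hbv
    refine ⟨w, (hE _ he).1, (hE _ he).2, ?_⟩
    rintro ⟨m, hm, hnm⟩
    have hsub : Mat (del (del2 E u b) w) (n - 1) := by
      refine ⟨M.erase (w, b), ?_, ?_, ?_, ?_⟩
      · rw [Finset.card_erase_of_mem he, hc]
      · intro f hf
        have hfM := Finset.mem_of_mem_erase hf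
        have hfe := Finset.ne_of_mem_erase hf
        exact ⟨fun h => hfe (h1 hfM he h), (hE f hfM).1, fun h => hfe (h2 hfM he h), (hE f hfM).2⟩
      · exact h1.mono (Finset.coe_subset.mpr (Finset.erase_subset _ _))
      · exact h2.mono (Finset.coe_subset.mpr (Finset.erase_subset _ _))
    have hlt : n - 1 < m := by
      by_contra hcon
      exact hnm (mat_mono hsub (by omega))
    obtain ⟨N, hNc, hNE, hN1, hN2⟩ := hm
    have hadd := mat_add (E := E) (M := N) (a := u) (b := b)
      (fun f hf => (hNE f hf).2.2) hN1 hN2 huv (fun f hf => (hNE f hf).1)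
      (fun f hf => (hNE f hf).2.1)
    have := hmax _ hadd
    omega

end Pool.Agent.Helper34.GS
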